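import Pool.Agent.V11110.ST5

namespace Pool.Agent.Results.MP_da03c4_co.NotLinear

open Pool.Agent.V11110.ST1 (J J_sep J_add)
open Pool.Agent.V11110.ST3 (XPlane exists_plane)
open Pool.Agent.V11110.ST5

/-- Hall's axioms for a ternary field (planar ternary ring) on `T`, where `t x a b` stands for
`x · a ∘ b`.  It coordinatizes the affine plane with points `T × T` and with lines
`{(x, y) | y = t x a b}` (slope `a`) and `{(x, y) | x = c}` (vertical). -/
structure IsTernaryField {T : Type} (zero one : T) (t : T → T → T → T) : Prop where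
  zero_ne_one : zero ≠ one
  zero_left : ∀ a b, t zero a b = b
  zero_mid : ∀ x b, t x zero b = b
  one_mid : ∀ x, t x one zero = x
  one_left : ∀ a, t one a zero = a
  intercept : ∀ x a y, ∃! b, t x a b = y
  join : ∀ x₁ y₁ x₂ y₂, x₁ ≠ x₂ → ∃! p : T × T, t x₁ p.1 p.2 = y₁ ∧ t x₂ p.1 p.2 = y₂
  meet : ∀ a b a' b', a ≠ a' → ∃! x, t x a b = t x a' b'

/-- `Q` is a ternary subfield: it contains `0` and `1` and is closed under the ternary operation
and under the solutions of the equations in Hall's axioms.  Then `Q × Q`, with the lines having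
coefficients in `Q`, is an affine subplane of the plane over `T`. -/
structure IsTernarySubfield {T : Type} (zero one : T) (t : T → T → T → T) (Q : Set T) : Prop where
  zero_mem : zero ∈ Q
  one_mem : one ∈ Q
  closed : ∀ x ∈ Q, ∀ a ∈ Q, ∀ b ∈ Q, t x a b ∈ Q
  intercept_mem : ∀ x ∈ Q, ∀ a ∈ Q, ∀ b, t x a b ∈ Q → b ∈ Q
  join_mem : ∀ x₁ ∈ Q, ∀ x₂ ∈ Q, x₁ ≠ x₂ → ∀ a b, t x₁ a b ∈ Q → t x₂ a b ∈ Q → a ∈ Q ∧ b ∈ Q
  meet_mem : ∀ a ∈ Q, ∀ b ∈ Q, ∀ a' ∈ Q, ∀ b' ∈ Q, a ≠ a' → ∀ x, t x a b = t x a' b' → x ∈ Q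

/-- `τ` is a translation of the affine plane with points `S × S` whose lines are the vertical
lines and the lines `y = t x a b` with coefficients in `S`: it is a bijection of the points which
maps every line into a parallel line (it fixes every point of the line at infinity `W`), and
there is a parallel class (a point of `W`, the centre) all of whose lines are mapped into
themselves. -/
structure IsTranslation {T : Type} (t : T → T → T → T) (S : Set T) (τ : T × T → T × T) :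
    Prop where
  bij : Set.BijOn τ (S ×ˢ S) (S ×ˢ S)
  vertical : ∀ c ∈ S, ∃ c' ∈ S, ∀ p ∈ S ×ˢ S, p.1 = c → (τ p).1 = c'
  slope : ∀ a ∈ S, ∀ b ∈ S, ∃ b' ∈ S, ∀ p ∈ S ×ˢ S, p.2 = t p.1 a b →
    (τ p).2 = t (τ p).1 a b'
  centre : (∀ c ∈ S, ∀ p ∈ S ×ˢ S, p.1 = c → (τ p).1 = c) ∨
    ∃ a ∈ S, ∀ b ∈ S, ∀ p ∈ S ×ˢ S, p.2 = t p.1 a b → (τ p).2 = t (τ p).1 a b

/-- The affine plane over the ternary field `T` is a semi-translation plane with respect to the
Baer subplane over `Q`. -/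
structure IsSemiTranslation {T : Type} (zero one : T) (t : T → T → T → T) (Q : Set T) :
    Prop where
  ternary : IsTernaryField zero one t
  subfield : IsTernarySubfield zero one t Q
  /-- every point lies on a line of the subplane -/
  baer_point : ∀ x y, x ∈ Q ∨ ∃ a ∈ Q, ∃ b ∈ Q, y = t x a b
  /-- every line whose point at infinity is not in the subplane contains a point of it -/
  baer_line : ∀ a b, a ∈ Q ∨ ∃ x ∈ Q, ∃ y ∈ Q, y = t x a b
  /-- the subplane is a translation plane -/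
  transitive : ∀ p ∈ Q ×ˢ Q, ∀ q ∈ Q ×ˢ Q, ∃ τ, IsTranslation t Q τ ∧ τ p = q
  /-- every translation of the subplane is induced by a translation of the plane -/
  induced : ∀ τ, IsTranslation t Q τ → ∃ τ', IsTranslation t Set.univ τ' ∧
    ∀ p ∈ Q ×ˢ Q, τ' p = τ p

/-- The identities of the addition `x + y = x · 1 ∘ y` and the multiplication `x y = x · y ∘ 0`
which the problem lists for semi-translation planes, for all `x, y` in `T` and `s` in `Q`. -/
structure ListedIdentities {T : Type} (zero one : T) (t : T → T → T → T) (Q : Set T) :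
    Prop where
  /-- `(x + s) + y = x + (s + y)` -/
  assoc_mid : ∀ x y, ∀ s ∈ Q, t (t x one s) one y = t x one (t s one y)
  /-- `(x + y) + s = x + (y + s)` -/
  assoc_right : ∀ x y, ∀ s ∈ Q, t (t x one y) one s = t x one (t y one s)
  /-- `(x + y) s = x s + y s` -/
  distrib : ∀ x y, ∀ s ∈ Q, t (t x one y) s zero = t (t x s zero) one (t y s zero)

/-! ### The ternary operation -/

variable {I : Option ℚ → ℚ × ℚ → ℚ} {σ : ℕ → ℚ × ℚ → ℚ × ℚ} {n : ℚ × ℚ → ℕ}

/-- The ternary operation of the plane. -/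
noncomputable def op (h : Fam I σ n) (x a b : ℚ × ℚ) : ℚ × ℚ :=
  Classical.choose (Lam_A h a x (Lam I σ n a (0, b)))

theorem op_iff (h : Fam I σ n) {x a b y : ℚ × ℚ} :
    op h x a b = y ↔ Lam I σ n a (x, y) = Lam I σ n a (0, b) := by
  have h1 := Classical.choose_spec (Lam_A h a x (Lam I σ n a (0, b)))
  constructor
  · intro e
    rw [← e]
    exact h1.1
  · intro e
    exact (h1.2 y e).symm

theorem op_iff' (h : Fam I σ n) {x a b y : ℚ × ℚ} :
    y = op h x a b ↔ Lam I σ n a (x, y) = Lam I σ n a (0, b) := by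
  rw [eq_comm, op_iff]

/-- The subfield. -/
def QQ : Set (ℚ × ℚ) := {z | z.2 = 0}

theorem mem_QQ {z : ℚ × ℚ} : z ∈ QQ ↔ z.2 = 0 := Iff.rfl

theorem lam_zero_iff (h : Fam I σ n) {a p q : ℚ × ℚ} :
    Lam I σ n a (0, p) = Lam I σ n a (0, q) ↔ p = q := by
  constructor
  · intro e
    exact (Lam_A h a 0 _).unique e rfl
  · rintro rfl
    rfl

theorem op_QQ (h : Fam I σ n) {x a b : ℚ × ℚ} (hx : x ∈ QQ) (ha : a ∈ QQ) (hb : b ∈ QQ) :
    op h x a b = (b.1 + a.1 * x.1, 0) := by
  rw [op_iff, Lam_Q ha, Lam_Q ha]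
  rw [mem_QQ] at hx hb
  simp [J, hx, hb]

theorem ternary (h : Fam I σ n) : IsTernaryField (0 : ℚ × ℚ) (1, 0) (op h) where
  zero_ne_one := by
    intro e
    exact zero_ne_one (Prod.ext_iff.1 e).1
  zero_left a b := by rw [op_iff]
  zero_mid x b := by
    rw [op_iff, Lam_Q rfl, Lam_Q rfl]
    simp [J, h.hX.zero]
  one_mid x := by
    rw [op_iff, Lam_Q rfl, Lam_Q rfl]
    simp [J, h.hX.one]
  one_left a := by
    rw [op_iff]
    by_cases ha : a.2 = 0
    · rw [Lam_Q ha, Lam_Q ha]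
      simp [J, ha]
    · rw [Lam_N ha, Lam_N ha]
      simp only
      rw [h.hn a ha]
      have : σ (n a) ((0 : ℚ × ℚ).2, (0 : ℚ × ℚ).2) = 0 := h.f0 _
      rw [this]
      simp only [sub_self, sub_zero]
      rfl
  intercept x a y := by
    obtain ⟨b, hb, hu⟩ := Lam_A h a 0 (Lam I σ n a (x, y))
    refine ⟨b, ?_, ?_⟩
    · simp only
      rw [op_iff]
      exact hb.symm
    · intro b' hb'
      rw [op_iff] at hb'
      exact hu b' hb'.symm
  join x₁ y₁ x₂ y₂ hx := by
    obtain ⟨a, ha⟩ := Lam_C h (p := (x₁, y₁)) (q := (x₂, y₂)) hx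
    obtain ⟨b, hb, hub⟩ := Lam_A h a 0 (Lam I σ n a (x₁, y₁))
    refine ⟨(a, b), ⟨?_, ?_⟩, ?_⟩
    · rw [op_iff]
      exact hb.symm
    · rw [op_iff]
      exact (hb.trans ha).symm
    · rintro ⟨a', b'⟩ ⟨h1, h2⟩
      rw [op_iff] at h1 h2
      simp only at h1 h2
      have e : a' = a := by
        by_contra hne
        have := (Lam_B h hne (Lam I σ n a' (x₁, y₁)) (Lam I σ n a (x₁, y₁))).unique
          (y₁ := (x₁, y₁)) (y₂ := (x₂, y₂)) ⟨rfl, rfl⟩ ⟨h2.trans h1.symm, ha.symm⟩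
        exact hx (Prod.ext_iff.1 this).1
      subst e
      rw [hub b' h1.symm]
  meet a b a' b' hne := by
    obtain ⟨⟨x, y⟩, ⟨h1, h2⟩, hu⟩ := Lam_B h hne (Lam I σ n a (0, b)) (Lam I σ n a' (0, b'))
    refine ⟨x, ?_, ?_⟩
    · simp only
      rw [(op_iff h).2 h1, (op_iff h).2 h2]
    · intro x' hx'
      have h3 : Lam I σ n a (x', op h x' a b) = Lam I σ n a (0, b) := (op_iff h).1 rfl
      have h4 : Lam I σ n a' (x', op h x' a b) = Lam I σ n a' (0, b') := (op_iff h).1 hx'.symm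
      exact (Prod.ext_iff.1 (hu (x', op h x' a b) ⟨h3, h4⟩)).1

theorem subfield (h : Fam I σ n) : IsTernarySubfield (0 : ℚ × ℚ) (1, 0) (op h) QQ where
  zero_mem := rfl
  one_mem := rfl
  closed x hx a ha b hb := by
    rw [op_QQ h hx ha hb]
    rfl
  intercept_mem x hx a ha b hb := by
    have hT := ternary h
    have h1 : op h x a ((op h x a b).1 - a.1 * x.1, 0) = op h x a b := by
      rw [op_QQ h hx ha rfl]
      apply Prod.ext
      · simp
      · exact (mem_QQ.1 hb).symm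
    have h2 := (hT.intercept x a (op h x a b)).unique h1 rfl
    rw [← h2]
    rfl
  join_mem x₁ hx₁ x₂ hx₂ hne a b h1 h2 := by
    have hT := ternary h
    have hne1 : x₁.1 - x₂.1 ≠ 0 := by
      intro e
      apply hne
      rw [mem_QQ] at hx₁ hx₂
      exact Prod.ext (sub_eq_zero.1 e) (hx₁.trans hx₂.symm)
    set y₁ := op h x₁ a b with hy₁
    set y₂ := op h x₂ a b with hy₂
    set m : ℚ := (y₁.1 - y₂.1) / (x₁.1 - x₂.1) with hm
    have hm' : m * (x₁.1 - x₂.1) = y₁.1 - y₂.1 := div_mul_cancel₀ _ hne1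
    have e1 : op h x₁ (m, 0) (y₁.1 - m * x₁.1, 0) = y₁ := by
      rw [op_QQ h hx₁ rfl rfl]
      apply Prod.ext
      · simp
      · exact (mem_QQ.1 h1).symm
    have e2 : op h x₂ (m, 0) (y₁.1 - m * x₁.1, 0) = y₂ := by
      rw [op_QQ h hx₂ rfl rfl]
      apply Prod.ext
      · simp only
        linarith
      · exact (mem_QQ.1 h2).symm
    have h3 := (hT.join x₁ y₁ x₂ y₂ hne).unique
      (y₁ := ((m, 0), (y₁.1 - m * x₁.1, 0))) (y₂ := (a, b)) ⟨e1, e2⟩ ⟨rfl, rfl⟩
    have ha : (m, 0) = a := (Prod.ext_iff.1 h3).1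
    have hb : (y₁.1 - m * x₁.1, 0) = b := (Prod.ext_iff.1 h3).2
    rw [← ha, ← hb]
    exact ⟨rfl, rfl⟩
  meet_mem a ha b hb a' ha' b' hb' hne x hx := by
    have hT := ternary h
    have hne1 : a.1 - a'.1 ≠ 0 := by
      intro e
      apply hne
      rw [mem_QQ] at ha ha'
      exact Prod.ext (sub_eq_zero.1 e) (ha.trans ha'.symm)
    have e1 : op h ((b'.1 - b.1) / (a.1 - a'.1), 0) a b =
        op h ((b'.1 - b.1) / (a.1 - a'.1), 0) a' b' := by
      rw [op_QQ h rfl ha hb, op_QQ h rfl ha' hb']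
      apply Prod.ext
      · simp only
        field_simp
        ring
      · rfl
    have := (hT.meet a b a' b' hne).unique e1 hx
    rw [← this]
    rfl

/-! ### Translations -/

/-- The translation by the vector `c`. -/
def tr (c : ℚ × ℚ) (p : (ℚ × ℚ) × (ℚ × ℚ)) : (ℚ × ℚ) × (ℚ × ℚ) :=
  ((p.1.1 + c.1, p.1.2), (p.2.1 + c.2, p.2.2))

/-- The change of label under a translation. -/
def shift (a c : ℚ × ℚ) : ℚ × ℚ := if a.2 = 0 then (J (some a.1) c, 0) else c

theorem lam_tr (a c : ℚ × ℚ) (p : (ℚ × ℚ) × (ℚ × ℚ)) :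
    Lam I σ n a (tr c p) = Lam I σ n a p + shift a c := by
  by_cases ha : a.2 = 0
  · rw [Lam_Q ha, Lam_Q ha, shift, if_pos ha]
    simp only [tr]
    apply Prod.ext
    · simp [J]
      ring
    · simp
  · rw [Lam_N ha, Lam_N ha, shift, if_neg ha]
    simp only [tr]
    have : ((p.1.1 + c.1, p.2.1 + c.2) : ℚ × ℚ) = (p.1.1, p.2.1) + c := rfl
    rw [this]
    abel

theorem tr_neg (c : ℚ × ℚ) (p) : tr (-c) (tr c p) = p := by
  simp [tr]

theorem tr_neg' (c : ℚ × ℚ) (p) : tr c (tr (-c) p) = p := by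
  simp [tr]

theorem tr_slope (h : Fam I σ n) (c a b : ℚ × ℚ) : ∃ b',
    (∀ p : (ℚ × ℚ) × (ℚ × ℚ), p.2 = op h p.1 a b → (tr c p).2 = op h (tr c p).1 a b') ∧
    Lam I σ n a (0, b') = Lam I σ n a (0, b) + shift a c := by
  obtain ⟨b', hb', -⟩ := Lam_A h a 0 (Lam I σ n a (0, b) + shift a c)
  refine ⟨b', ?_, hb'⟩
  intro p hp
  rw [op_iff'] at hp ⊢
  rw [hb']
  have : Lam I σ n a (tr c p) = Lam I σ n a p + shift a c := lam_tr a c p
  rw [show ((tr c p).1, (tr c p).2) = tr c p from rfl, this,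
    show Lam I σ n a p = Lam I σ n a (0, b) from hp]

theorem tr_translation (h : Fam I σ n) (c : ℚ × ℚ) (S : Set (ℚ × ℚ)) (hS : S = QQ ∨ S = Set.univ) :
    IsTranslation (op h) S (tr c) := by
  have hmaps : ∀ c' : ℚ × ℚ, Set.MapsTo (tr c') (S ×ˢ S) (S ×ˢ S) := by
    intro c' p hp
    rcases hS with rfl | rfl
    · exact ⟨hp.1, hp.2⟩
    · exact ⟨trivial, trivial⟩
  constructor
  · refine ⟨hmaps c, ?_, ?_⟩
    · intro p _ q _ he
      rw [← tr_neg c p, he, tr_neg]
    · intro p hp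
      exact ⟨tr (-c) p, hmaps (-c) hp, tr_neg' c p⟩
  · intro d hd
    refine ⟨(d.1 + c.1, d.2), ?_, ?_⟩
    · rcases hS with rfl | rfl
      · exact hd
      · trivial
    · intro p _ hp1
      rw [← hp1]
      rfl
  · intro a ha b hb
    obtain ⟨b', h1, h2⟩ := tr_slope h c a b
    refine ⟨b', ?_, fun p _ hp => h1 p hp⟩
    rcases hS with rfl | rfl
    · rw [shift, if_pos (show a.2 = 0 from ha), Lam_Q ha, Lam_Q ha] at h2
      have h3 : I (some a.1) ((0 : ℚ), b'.2) = I (some a.1) (0, b.2) := by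
        have := (Prod.ext_iff.1 h2).2
        simpa using this
      rw [mem_QQ] at hb ⊢
      rw [hb] at h3
      by_contra hne
      have hne' : ((0 : ℚ), b'.2) ≠ (0, 0) := fun e => hne (Prod.ext_iff.1 e).2
      have := h.hX.sep hne' (m := none) (m' := some a.1) (by rw [h.hX.none, h.hX.none]) h3
      simp at this
    · trivial
  · by_cases hc : c.1 = 0
    · left
      intro d _ p _ hp
      rw [← hp]
      simp [tr, hc]
    · right
      refine ⟨(c.2 / c.1, 0), ?_, ?_⟩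
      · rcases hS with rfl | rfl
        · rfl
        · trivial
      · intro b hb p _ hp
        obtain ⟨b', h1, h2⟩ := tr_slope h c (c.2 / c.1, 0) b
        have h3 : shift (c.2 / c.1, 0) c = 0 := by
          rw [shift, if_pos rfl]
          simp only [J]
          rw [div_mul_cancel₀ _ hc, sub_self]
          rfl
        rw [h3, add_zero, lam_zero_iff h] at h2
        rw [h2] at h1
        exact h1 p hp

theorem translation_unique (h : Fam I σ n) {τ : (ℚ × ℚ) × (ℚ × ℚ) → (ℚ × ℚ) × (ℚ × ℚ)}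
    (hτ : IsTranslation (op h) QQ τ) : ∃ c, ∀ p ∈ QQ ×ˢ QQ, tr c p = τ p := by
  have hop : ∀ x a b : ℚ, op h (x, 0) (a, 0) (b, 0) = (b + a * x, 0) := fun x a b =>
    op_QQ h rfl rfl rfl
  have hmem : ∀ x y : ℚ, (((x, 0), (y, 0)) : (ℚ × ℚ) × (ℚ × ℚ)) ∈ QQ ×ˢ QQ := fun x y => ⟨rfl, rfl⟩
  -- the two coordinates of the image
  set f : ℚ → ℚ → ℚ := fun x y => (τ ((x, 0), (y, 0))).1.1 with hf
  set g : ℚ → ℚ → ℚ := fun x y => (τ ((x, 0), (y, 0))).2.1 with hg
  have hτ' : ∀ x y, τ ((x, 0), (y, 0)) = ((f x y, 0), (g x y, 0)) := by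
    intro x y
    have := hτ.bij.mapsTo (hmem x y)
    apply Prod.ext
    · exact Prod.ext rfl this.1
    · exact Prod.ext rfl this.2
  -- vertical lines
  have hv : ∀ x y y', f x y = f x y' := by
    intro x y y'
    obtain ⟨c', -, hc'⟩ := hτ.vertical (x, 0) rfl
    have h1 := hc' _ (hmem x y) rfl
    have h2 := hc' _ (hmem x y') rfl
    rw [hτ'] at h1 h2
    exact (Prod.ext_iff.1 (h1.trans h2.symm)).1
  -- lines of slope `a`
  have hs : ∀ a x y x' y', y - a * x = y' - a * x' →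
      g x y - a * f x y = g x' y' - a * f x' y' := by
    intro a x y x' y' he
    obtain ⟨b', hb', hb⟩ := hτ.slope (a, 0) rfl (y - a * x, 0) rfl
    obtain ⟨b1, b2⟩ := b'
    rw [mem_QQ] at hb'
    simp only at hb'
    subst hb'
    have h1 := hb _ (hmem x y) (by simp only; rw [hop]; simp)
    have h2 := hb _ (hmem x' y') (by simp only; rw [hop, he]; simp)
    rw [hτ'] at h1 h2
    simp only at h1 h2
    rw [hop] at h1 h2
    have h3 := (Prod.ext_iff.1 h1).1
    have h4 := (Prod.ext_iff.1 h2).1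
    simp only at h3 h4
    linarith
  have hh : ∀ x x' y, g x y = g x' y := by
    intro x x' y
    have := hs 0 x y x' y (by ring)
    linarith
  -- additivity
  have hfx : ∀ x y, f x y = f x 0 := fun x y => hv x y 0
  have hgy : ∀ x y, g x y = g 0 y := fun x y => hh x 0 y
  have hdiag : ∀ x y, g 0 y - f x 0 = g 0 (y - x) - f 0 0 := by
    intro x y
    have := hs 1 x y 0 (y - x) (by ring)
    rw [hfx x y, hgy x y, hfx 0 (y - x)] at this
    linarith
  have hVU : ∀ x, f x 0 - f 0 0 = g 0 x - g 0 0 := by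
    intro x
    have := hdiag x x
    rw [sub_self] at this
    linarith
  have hV : ∀ x y, g 0 (x + y) - g 0 0 = (g 0 x - g 0 0) + (g 0 y - g 0 0) := by
    intro x y
    have h1 := hdiag x (x + y)
    have h2 := hVU x
    rw [add_sub_cancel_left] at h1
    linarith
  let V : ℚ →+ ℚ := AddMonoidHom.mk' (fun x => g 0 x - g 0 0) hV
  have hlin : ∀ x, g 0 x - g 0 0 = x * (g 0 1 - g 0 0) := by
    intro x
    have h1 : V (x • (1 : ℚ)) = x • V 1 := map_rat_smul V x 1
    simpa [V] using h1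
  obtain ⟨l, hl⟩ : ∃ l, g 0 1 - g 0 0 = l := ⟨_, rfl⟩
  rw [hl] at hlin
  have hg' : ∀ x y, g x y = y * l + g 0 0 := by
    intro x y
    rw [hgy]
    linarith [hlin y]
  have hf' : ∀ x y, f x y = x * l + f 0 0 := by
    intro x y
    rw [hfx]
    linarith [hVU x, hlin x]
  -- the centre forces `l = 1`
  have hl1 : l = 1 := by
    rcases hτ.centre with hc | ⟨a, ha, hc⟩
    · have h0 := hc (0, 0) rfl _ (hmem 0 0) rfl
      have h1 := hc (1, 0) rfl _ (hmem 1 0) rfl
      rw [hτ'] at h0 h1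
      have e0 := (Prod.ext_iff.1 h0).1
      have e1 := (Prod.ext_iff.1 h1).1
      simp only at e0 e1
      rw [hf'] at e1
      linarith
    · obtain ⟨a1, a2⟩ := a
      rw [mem_QQ] at ha
      simp only at ha
      subst ha
      have h0 := hc (0, 0) rfl _ (hmem 0 0) (by simp only; rw [hop]; simp)
      have h1 := hc (1, 0) rfl _ (hmem 0 1) (by simp only; rw [hop]; simp)
      rw [hτ'] at h0 h1
      simp only at h0 h1
      rw [hop] at h0 h1
      have e0 := (Prod.ext_iff.1 h0).1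
      have e1 := (Prod.ext_iff.1 h1).1
      simp only at e0 e1
      rw [hf', hg'] at e1
      linarith
  refine ⟨(f 0 0, g 0 0), ?_⟩
  rintro ⟨⟨x, x'⟩, ⟨y, y'⟩⟩ ⟨hx, hy⟩
  rw [mem_QQ] at hx hy
  simp only at hx hy
  subst hx hy
  have h1 := hf' x y
  have h2 := hg' x y
  rw [hl1] at h1 h2
  rw [hτ', h1, h2]
  simp [tr]

theorem semiTranslation (h : Fam I σ n) : IsSemiTranslation (0 : ℚ × ℚ) (1, 0) (op h) QQ where
  ternary := ternary h
  subfield := subfield h
  baer_point x y := by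
    by_cases hx : x ∈ QQ
    · exact Or.inl hx
    · right
      rw [mem_QQ] at hx
      obtain ⟨m, hm⟩ := h.hX.ex (x.2, y.2) 0
      rcases m with _ | m
      · rw [h.hX.none, h.hX.none] at hm
        exact absurd hm hx
      · refine ⟨(m, 0), rfl, (y.1 - m * x.1, 0), rfl, ?_⟩
        rw [op_iff', Lam_Q rfl, Lam_Q rfl]
        apply Prod.ext
        · simp [J]
        · exact hm
  baer_line a b := by
    by_cases ha : a ∈ QQ
    · exact Or.inl ha
    · right
      have ha' : a.2 ≠ 0 := ha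
      refine ⟨((Lam I σ n a (0, b)).1, 0), rfl, ((Lam I σ n a (0, b)).2, 0), rfl, ?_⟩
      rw [op_iff', Lam_N ha']
      simp only
      have : σ (n a) ((0 : ℚ), (0 : ℚ)) = 0 := h.f0 _
      rw [this, sub_zero]
  transitive p hp q hq := by
    refine ⟨tr (q.1.1 - p.1.1, q.2.1 - p.2.1), tr_translation h _ _ (Or.inl rfl), ?_⟩
    obtain ⟨⟨p1, p2⟩, ⟨p3, p4⟩⟩ := p
    obtain ⟨⟨q1, q2⟩, ⟨q3, q4⟩⟩ := q
    obtain ⟨e1, e2⟩ := hp
    obtain ⟨e3, e4⟩ := hq
    rw [mem_QQ] at e1 e2 e3 e4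
    simp only at e1 e2 e3 e4
    subst e1 e2 e3 e4
    simp [tr]
  induced τ hτ := by
    obtain ⟨c, hc⟩ := translation_unique h hτ
    exact ⟨tr c, tr_translation h _ _ (Or.inr rfl), hc⟩

theorem op_one (h : Fam I σ n) (x y : ℚ × ℚ) : op h x (1, 0) y = x + y := by
  rw [op_iff, Lam_Q rfl, Lam_Q rfl]
  simp [J, h.hX.one]

theorem op_mul (h : Fam I σ n) (x s : ℚ × ℚ) (hs : s ∈ QQ) :
    op h x s 0 = (s.1 * x.1, s.1 * x.2) := by
  rw [op_iff, Lam_Q hs, Lam_Q hs]
  apply Prod.ext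
  · simp [J]
  · show I (some s.1) (x.2, s.1 * x.2) = I (some s.1) (0, 0)
    rw [h.hX.orig, h.hX.icpt]

theorem listed (h : Fam I σ n) : ListedIdentities (0 : ℚ × ℚ) (1, 0) (op h) QQ where
  assoc_mid x y s _ := by
    rw [op_one, op_one, op_one, op_one, add_assoc]
  assoc_right x y s _ := by
    rw [op_one, op_one, op_one, op_one, add_assoc]
  distrib x y s hs := by
    rw [op_one, op_one, op_mul h _ s hs, op_mul h _ s hs, op_mul h _ s hs]
    apply Prod.ext
    · simp [mul_add]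
    · simp [mul_add]

/-- **Disproof.** There is a semi-translation plane, with a ternary field `T` of it with respect
to a frame of the Baer subplane, which is not `Q`-linear.  Moreover all the listed identities
hold in `T`. -/
theorem result : ∃ (T : Type) (zero one : T) (t : T → T → T → T) (Q : Set T),
    IsSemiTranslation zero one t Q ∧ ListedIdentities zero one t Q ∧
    ¬ (∀ x y, ∀ s ∈ Q, t x s y = t (t x s zero) one y) := by
  obtain ⟨I, hX, h5⟩ := exists_plane
  obtain ⟨σ, n, h⟩ := exists_fam hX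
  refine ⟨ℚ × ℚ, 0, (1, 0), op h, QQ, semiTranslation h, listed h, ?_⟩
  intro hlin
  have h1 := hlin (0, 1) (0, 5) (2, 0) rfl
  have e1 : op h (0, 1) (2, 0) (0, 5) = (0, 3) := by
    rw [op_iff, Lam_Q rfl, Lam_Q rfl]
    apply Prod.ext
    · simp [J]
    · show I (some 2) (1, 3) = I (some 2) (0, 5)
      rw [h5, h.hX.icpt]
  rw [e1, op_mul h _ _ rfl, op_one] at h1
  have h2 := (Prod.ext_iff.1 h1).2
  norm_num at h2

end Pool.Agent.Results.MP_da03c4_co.NotLinear
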